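import Pool.Agent.H626R3.Ghost.Main

/-!
# Compact ghost projections on sparse subspaces: invariance under coarse embeddings

If `Y` coarsely embeds into `X` and all sparse subspaces of `X` yield only compact ghost
projections, then all sparse subspaces of `Y` yield only compact ghost projections.

Idea of the proof: a non-compact ghost projection `p` of a sparse subspace of `Y` is first cut by a
finite rank projection so that all `‖p δ_w‖` are small. The fibres of `f` have at most `2 ^ k`
points, and the Marcus-Spielman-Srivastava theorem (through a selection theorem) chooses one point
in every fibre such that the diagonal projection `D` on the chosen points satisfies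
`p D p ≥ 2 ^ (-k-1) p`. Then `D p (p D p)⁻¹ p D` is a non-compact ghost projection living on the
image of `f`.
-/

universe u v

namespace Pool.Agent.Results.MP_7884fa_an.CoarseInvariance

open Pool.Agent.H626R3.Ghost

/-- **Main result** (positive answer to Q1): for uniformly locally finite metric spaces `X`, `Y`,
if `Y` coarsely embeds into `X` and all sparse subspaces of `X` yield only compact ghost
projections, then all sparse subspaces of `Y` yield only compact ghost projections. -/
theorem result (X : Type u) (Y : Type v) [MetricSpace X] [MetricSpace Y] (_hX : ULF X)
    (hY : ULF Y) (f : Y → X) (hf : IsCoarseEmbedding f) (h : GhostCompact X) : GhostCompact Y :=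
  Q1 hY f hf h

end Pool.Agent.Results.MP_7884fa_an.CoarseInvariance
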